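import Pool.Agent.Helper99.RS.Defs

/-!
# RS, leaf LC: small path connected neighbourhoods in the surface
-/

set_option autoImplicit false

open Filter
open scoped ContDiff Topology

namespace Pool.Agent.Helper99.RS

open Pool.Agent.Helper78.FB

/-- The set which corresponds to a convex set under a local diffeomorphism has small path connected neighbourhoods. -/
theorem chart_conn {X Y : Type*} [NormedAddCommGroup X] [NormedSpace ℝ X] [CompleteSpace X] [NormedAddCommGroup Y]
    [NormedSpace ℝ Y] {Φ : X → Y} {Φ' : X ≃L[ℝ] Y} {z : X} (hΦ : HasStrictFDerivAt Φ (Φ' : X →L[ℝ] Y) z)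
    {A W : Set X} {S : Set Y} (hS : Convex ℝ S) (hz : Φ z ∈ S) (hW : IsOpen W) (hzW : z ∈ W)
    (hA : ∀ y ∈ W, (y ∈ A ↔ Φ y ∈ S)) {e : ℝ} (he : 0 < e) :
    ∃ V : Set X, IsOpen V ∧ z ∈ V ∧ V ⊆ Metric.ball z e ∧ IsPathConnected (A ∩ V) := by
  set Ψ := hΦ.toOpenPartialHomeomorph Φ with hΨ
  have hcoe : (Ψ : X → Y) = Φ := hΦ.toOpenPartialHomeomorph_coe
  have hsrc : z ∈ Ψ.source := hΦ.mem_toOpenPartialHomeomorph_source
  have hT : IsOpen (Ψ.target ∩ Ψ.symm ⁻¹' (Metric.ball z e ∩ W)) :=
    Ψ.symm.isOpen_inter_preimage (Metric.isOpen_ball.inter hW)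
  have hzT : Φ z ∈ Ψ.target ∩ Ψ.symm ⁻¹' (Metric.ball z e ∩ W) := by
    refine ⟨?_, ?_⟩
    · rw [← hcoe]; exact Ψ.map_source hsrc
    · have h1 : Ψ.symm (Φ z) = z := by rw [← hcoe]; exact Ψ.left_inv hsrc
      show Ψ.symm (Φ z) ∈ Metric.ball z e ∩ W
      rw [h1]
      exact ⟨Metric.mem_ball_self he, hzW⟩
  obtain ⟨r, hr, hrT⟩ := Metric.isOpen_iff.mp hT _ hzT
  refine ⟨Ψ.source ∩ Ψ ⁻¹' Metric.ball (Φ z) r, Ψ.isOpen_inter_preimage Metric.isOpen_ball, ⟨hsrc, ?_⟩, ?_, ?_⟩
  · show Ψ z ∈ Metric.ball (Φ z) r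
    rw [hcoe]; exact Metric.mem_ball_self hr
  · rintro y ⟨hy, hy2⟩
    have h1 := (hrT hy2).2
    have h2 : Ψ.symm (Ψ y) = y := Ψ.left_inv hy
    rw [Set.mem_preimage, h2] at h1
    exact h1.1
  · have himg : A ∩ (Ψ.source ∩ Ψ ⁻¹' Metric.ball (Φ z) r) = Ψ.symm '' (S ∩ Metric.ball (Φ z) r) := by
      ext y
      constructor
      · rintro ⟨hyA, hy, hy2⟩
        have h1 := (hrT hy2).2
        have h2 : Ψ.symm (Ψ y) = y := Ψ.left_inv hy
        rw [Set.mem_preimage, h2] at h1
        refine ⟨Ψ y, ⟨?_, hy2⟩, h2⟩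
        rw [hcoe]
        exact (hA y h1.2).mp hyA
      · rintro ⟨w, ⟨hwS, hwr⟩, rfl⟩
        have hwT := hrT hwr
        have h3 : Ψ (Ψ.symm w) = w := Ψ.right_inv hwT.1
        refine ⟨?_, Ψ.map_target hwT.1, ?_⟩
        · rw [hA _ hwT.2.2, ← hcoe, h3]
          exact hwS
        · show Ψ (Ψ.symm w) ∈ Metric.ball (Φ z) r
          rw [h3]; exact hwr
    rw [himg]
    refine IsPathConnected.image' ?_ ?_
    · exact (hS.inter (convex_ball _ _)).isPathConnected ⟨Φ z, hz, Metric.mem_ball_self hr⟩
    · exact Ψ.continuousOn_symm.mono fun w hw => (hrT hw.2).1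

/-- A linear map to `Fin 3 → ℝ` without kernel. -/
theorem exists_equiv {L : E →L[ℝ] (Fin 3 → ℝ)} (hL : ∀ v, L v = 0 → v = 0) :
    ∃ L' : E ≃L[ℝ] (Fin 3 → ℝ), (L' : E →L[ℝ] (Fin 3 → ℝ)) = L := by
  have hinj : Function.Injective (L : E →ₗ[ℝ] (Fin 3 → ℝ)) := by
    rw [← LinearMap.ker_eq_bot, LinearMap.ker_eq_bot']
    exact hL
  have hfin : Module.finrank ℝ E = Module.finrank ℝ (Fin 3 → ℝ) := by simp
  have hsurj : Function.Surjective (L : E →ₗ[ℝ] (Fin 3 → ℝ)) :=
    (LinearMap.injective_iff_surjective_of_finrank_eq_finrank hfin).mp hinj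
  refine ⟨ContinuousLinearEquiv.ofBijective L (LinearMap.ker_eq_bot.mpr hinj) (LinearMap.range_eq_top.mpr hsurj), ?_⟩
  ext v
  rfl

theorem fderiv_eq_sum (F : E → ℝ) (z v : E) : fderiv ℝ F z v = ∑ i, v i * pd i F z := by
  have h1 : v = ∑ i, v i • EuclideanSpace.single i (1 : ℝ) := by
    ext j
    simp [Fin.sum_univ_three]
    fin_cases j <;> simp
  conv_lhs => rw [h1]
  rw [map_sum]
  refine Finset.sum_congr rfl fun i _ => ?_
  rw [map_smul, smul_eq_mul]
  rfl

theorem lc {F : E → ℝ} (h : FBMS F) {z : E} (hz : z ∈ surf F) {e : ℝ} (he : 0 < e) :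
    ∃ V : Set E, IsOpen V ∧ z ∈ V ∧ V ⊆ Metric.ball z e ∧ IsPathConnected (surf F ∩ V) := by
  obtain ⟨U, hU, hUs, hU1⟩ := h.unit
  have hN : ∑ i, pd i F z ^ 2 = 1 := hU1 z (hUs hz)
  have hFs : HasStrictFDerivAt F (fderiv ℝ F z) z := h.smooth.contDiffAt.hasStrictFDerivAt (by simp)
  have hco : ∀ i : Fin 3, HasStrictFDerivAt (fun y : E => y i) (EuclideanSpace.proj i : E →L[ℝ] ℝ) z :=
    fun i => (EuclideanSpace.proj i : E →L[ℝ] ℝ).hasStrictFDerivAt
  rcases lt_or_eq_of_le hz.1 with hlt | heq
  · -- interior point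
    have hex : ∃ i, pd i F z ≠ 0 := by
      by_contra hcon
      push Not at hcon
      simp [hcon] at hN
    obtain ⟨i, hi⟩ := hex
    have hd : HasStrictFDerivAt (fun y : E => (fun j => if j = i then F y else y j : Fin 3 → ℝ))
        (ContinuousLinearMap.pi fun j => if j = i then fderiv ℝ F z else (EuclideanSpace.proj j : E →L[ℝ] ℝ)) z := by
      rw [hasStrictFDerivAt_pi]
      intro j
      by_cases hj : j = i
      · simp only [hj, if_true]; exact hFs
      · simp only [hj, if_false]; exact hco j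
    obtain ⟨L', hL'⟩ := exists_equiv
      (L := ContinuousLinearMap.pi fun j => if j = i then fderiv ℝ F z else (EuclideanSpace.proj j : E →L[ℝ] ℝ)) (by
        intro v hv
        have h1 : ∀ j, j ≠ i → v j = 0 := by
          intro j hj
          have := congrFun hv j
          simpa [hj] using this
        have h2 : fderiv ℝ F z v = 0 := by
          have := congrFun hv i
          simpa using this
        rw [fderiv_eq_sum] at h2
        have h3 : v i * pd i F z = 0 := by
          rw [← h2]
          exact (Finset.sum_eq_single (s := Finset.univ) (f := fun j : Fin 3 => v j * pd j F z) i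
            (fun j _ hj => by rw [h1 j hj, zero_mul]) (fun hni => absurd (Finset.mem_univ i) hni)).symm
        have h4 : v i = 0 := by
          rcases mul_eq_zero.mp h3 with h5 | h5
          · exact h5
          · exact absurd h5 hi
        ext j
        by_cases hj : j = i
        · rw [hj, h4]; rfl
        · rw [h1 j hj]; rfl)
    rw [← hL'] at hd
    refine chart_conn hd (S := {w : Fin 3 → ℝ | w i = 0}) (W := Metric.ball 0 1) ?_ ?_ Metric.isOpen_ball ?_ ?_ he
    · intro x hx y hy a b _ _ _
      simp only [Set.mem_ofPred_eq, Pi.add_apply, Pi.smul_apply, smul_eq_mul] at hx hy ⊢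
      rw [hx, hy]; ring
    · simp [hz.2]
    · simpa using hlt
    · intro y hy
      have hy1 : ‖y‖ < 1 := by simpa using hy
      simp only [surf, Set.mem_ofPred_eq, if_true]
      exact ⟨fun h => h.2, fun h => ⟨hy1.le, h⟩⟩
  · -- boundary point
    have htr := h.transverse z ⟨heq, hz.2⟩
    have hz1 : ∑ i, z i ^ 2 = 1 := by
      have := EuclideanSpace.real_norm_sq_eq z
      rw [heq] at this
      rw [← this]; norm_num
    have hd0 : HasStrictFDerivAt (fun y : E => ‖y‖ ^ 2) (2 • innerSL ℝ z) z := hasStrictFDerivAt_norm_sq z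
    have hex : ∃ i j k : Fin 3, (∀ l, l = i ∨ l = j ∨ l = k) ∧ i ≠ j ∧ i ≠ k ∧ j ≠ k ∧
        pd i F z * z j - pd j F z * z i ≠ 0 := by
      by_contra hcon
      push Not at hcon
      have h01 := hcon 0 1 2 (by decide) (by decide) (by decide) (by decide)
      have h02 := hcon 0 2 1 (by decide) (by decide) (by decide) (by decide)
      have h12 := hcon 1 2 0 (by decide) (by decide) (by decide) (by decide)
      simp only [Fin.sum_univ_three] at htr hz1 hN
      have : (z 0 * pd 0 F z + z 1 * pd 1 F z + z 2 * pd 2 F z) ^ 2 = 1 := by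
        have h3 : (z 0 * pd 0 F z + z 1 * pd 1 F z + z 2 * pd 2 F z) ^ 2 =
            (z 0 ^ 2 + z 1 ^ 2 + z 2 ^ 2) * (pd 0 F z ^ 2 + pd 1 F z ^ 2 + pd 2 F z ^ 2) -
              (pd 0 F z * z 1 - pd 1 F z * z 0) ^ 2 - (pd 0 F z * z 2 - pd 2 F z * z 0) ^ 2 -
                (pd 1 F z * z 2 - pd 2 F z * z 1) ^ 2 := by ring
        rw [h3, h01, h02, h12, hz1, hN]; norm_num
      linarith
    obtain ⟨i, j, k, hall, hij, hik, hjk, hdet⟩ := hex
    have hd : HasStrictFDerivAt (fun y : E => (fun l => if l = i then F y else if l = j then ‖y‖ ^ 2 else y k : Fin 3 → ℝ))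
        (ContinuousLinearMap.pi fun l => if l = i then fderiv ℝ F z else if l = j then 2 • innerSL ℝ z else
          (EuclideanSpace.proj k : E →L[ℝ] ℝ)) z := by
      rw [hasStrictFDerivAt_pi]
      intro l
      by_cases hl : l = i
      · simp only [hl, if_true]; exact hFs
      · by_cases hl2 : l = j
        · subst hl2
          simp only [hl, if_false, if_true]; exact hd0
        · simp only [hl, hl2, if_false]; exact hco k
    obtain ⟨L', hL'⟩ := exists_equiv
      (L := ContinuousLinearMap.pi fun l => if l = i then fderiv ℝ F z else if l = j then 2 • innerSL ℝ z else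
          (EuclideanSpace.proj k : E →L[ℝ] ℝ)) (by
        intro v hv
        have h1 : fderiv ℝ F z v = 0 := by
          have := congrFun hv i
          simpa using this
        have h2 : ∑ l, z l * v l = 0 := by
          have := congrFun hv j
          simp only [ContinuousLinearMap.coe_pi', hij.symm, if_false, if_true, Pi.zero_apply] at this
          have h3 : (2 : ℝ) * inner ℝ z v = 0 := by
            simpa using this
          have h4 : inner ℝ z v = 0 := by linarith
          rw [PiLp.inner_apply] at h4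
          rw [← h4]
          refine Finset.sum_congr rfl fun l _ => ?_
          simp [mul_comm]
        have h3 : v k = 0 := by
          have := congrFun hv k
          simpa [hik.symm, hjk.symm] using this
        rw [fderiv_eq_sum] at h1
        have hsum : ∀ f : Fin 3 → ℝ, ∑ l, f l = f i + f j + f k := by
          intro f
          have hu : (Finset.univ : Finset (Fin 3)) = {i, j, k} := by
            ext l
            simp only [Finset.mem_univ, Finset.mem_insert, Finset.mem_singleton, true_iff]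
            exact hall l
          rw [hu, Finset.sum_insert (by simp [hij, hik]), Finset.sum_insert (by simp [hjk]), Finset.sum_singleton]
          ring
        rw [hsum] at h1 h2
        rw [h3] at h1 h2
        have h4 : v i * (pd i F z * z j - pd j F z * z i) = 0 := by linear_combination z j * h1 - pd j F z * h2
        have h5 : v j * (pd i F z * z j - pd j F z * z i) = 0 := by linear_combination pd i F z * h2 - z i * h1
        have h6 : v i = 0 := (mul_eq_zero.mp h4).resolve_right hdet
        have h7 : v j = 0 := (mul_eq_zero.mp h5).resolve_right hdet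
        ext l
        rcases hall l with rfl | rfl | rfl
        · rw [h6]; rfl
        · rw [h7]; rfl
        · rw [h3]; rfl)
    rw [← hL'] at hd
    refine chart_conn hd (S := {w : Fin 3 → ℝ | w i = 0 ∧ w j ≤ 1}) (W := Set.univ) ?_ ?_ isOpen_univ (Set.mem_univ z) ?_ he
    · intro x hx y hy a b ha hb hab
      simp only [Set.mem_ofPred_eq, Pi.add_apply, Pi.smul_apply, smul_eq_mul] at hx hy ⊢
      refine ⟨by rw [hx.1, hy.1]; ring, ?_⟩
      nlinarith [mul_le_mul_of_nonneg_left hx.2 ha, mul_le_mul_of_nonneg_left hy.2 hb]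
    · simp [hz.2, hij.symm, heq]
    · intro y _
      simp only [surf, Set.mem_ofPred_eq, if_true, hij.symm, if_false]
      constructor
      · rintro ⟨h1, h2⟩
        exact ⟨h2, by nlinarith [norm_nonneg y]⟩
      · rintro ⟨h1, h2⟩
        exact ⟨by nlinarith [norm_nonneg y], h1⟩

end Pool.Agent.Helper99.RS
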