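import Pool.Agent.Helper99.RS.UDefs

/-!
# RS, leaf U4: the Carleman weight `ψ = 1 / |y - a| ^ 2`
-/

set_option autoImplicit false

open MeasureTheory Filter
open scoped ContDiff Topology

namespace Pool.Agent.Helper99.RS

open Pool.Agent.Helper78.FB

/-- The denominator: `t` for `t ≥ ρ ^ 2 / 2`, positive and smooth. -/
noncomputable def wD (ρ t : ℝ) : ℝ :=
  Real.smoothTransition (4 * t / ρ ^ 2 - 1) * t + (1 - Real.smoothTransition (4 * t / ρ ^ 2 - 1))

theorem wD_pos {ρ : ℝ} (hρ : 0 < ρ) (t : ℝ) : 0 < wD ρ t := by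
  unfold wD
  have h0 := Real.smoothTransition.nonneg (4 * t / ρ ^ 2 - 1)
  have h1 := Real.smoothTransition.le_one (4 * t / ρ ^ 2 - 1)
  have hρ2 : 0 < ρ ^ 2 := by positivity
  rcases le_or_gt t 0 with ht | ht
  · have : 4 * t / ρ ^ 2 - 1 ≤ 0 := by
      have : 4 * t / ρ ^ 2 ≤ 0 := div_nonpos_of_nonpos_of_nonneg (by linarith) hρ2.le
      linarith
    rw [Real.smoothTransition.zero_of_nonpos this]
    norm_num
  · rcases eq_or_lt_of_le h0 with h | h
    · rw [← h]; norm_num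
    · have := mul_pos h ht
      linarith

theorem contDiff_wD (ρ : ℝ) : ContDiff ℝ ∞ (wD ρ) := by
  unfold wD
  have h1 : ContDiff ℝ ∞ (fun t : ℝ => Real.smoothTransition (4 * t / ρ ^ 2 - 1)) :=
    Real.smoothTransition.contDiff.comp (((contDiff_const.mul contDiff_id).div_const _).sub contDiff_const)
  exact (h1.mul contDiff_id).add (contDiff_const.sub h1)

theorem wD_eq {ρ t : ℝ} (hρ : 0 < ρ) (ht : ρ ^ 2 / 2 ≤ t) : wD ρ t = t := by
  unfold wD
  have hρ2 : 0 < ρ ^ 2 := by positivity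
  have : 1 ≤ 4 * t / ρ ^ 2 - 1 := by
    have : 2 ≤ 4 * t / ρ ^ 2 := by
      rw [le_div_iff₀ hρ2]; linarith
    linarith
  rw [Real.smoothTransition.one_of_one_le this]
  ring

/-- The function of the square of the distance. -/
noncomputable def wg (ρ t : ℝ) : ℝ := (wD ρ t)⁻¹

theorem contDiff_wg {ρ : ℝ} (hρ : 0 < ρ) : ContDiff ℝ ∞ (wg ρ) :=
  (contDiff_wD ρ).inv fun t => (wD_pos hρ t).ne'

theorem wg_eq {ρ t : ℝ} (hρ : 0 < ρ) (ht : ρ ^ 2 / 2 ≤ t) : wg ρ t = t⁻¹ := by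
  rw [wg, wD_eq hρ ht]

theorem deriv_wg {ρ t : ℝ} (hρ : 0 < ρ) (ht : ρ ^ 2 / 2 < t) : deriv (wg ρ) t = -(t ^ 2)⁻¹ := by
  have h : wg ρ =ᶠ[𝓝 t] fun t => t⁻¹ := by
    filter_upwards [lt_mem_nhds ht] with x hx
    exact wg_eq hρ hx.le
  rw [h.deriv_eq, deriv_inv]

theorem deriv2_wg {ρ t : ℝ} (hρ : 0 < ρ) (ht : ρ ^ 2 / 2 < t) : deriv (deriv (wg ρ)) t = 2 * (t ^ 3)⁻¹ := by
  have hρ2 : 0 < ρ ^ 2 := by positivity
  have ht0 : t ≠ 0 := by
    have : 0 < ρ ^ 2 / 2 := by positivity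
    linarith
  have h : deriv (wg ρ) =ᶠ[𝓝 t] fun t => -(t ^ 2)⁻¹ := by
    filter_upwards [lt_mem_nhds ht] with x hx
    exact deriv_wg hρ hx
  rw [h.deriv_eq]
  have h1 : HasDerivAt (fun t : ℝ => -(t ^ 2)⁻¹) (-(-(2 * t) / (t ^ 2) ^ 2)) t := by
    have h2 : HasDerivAt (fun t : ℝ => t ^ 2) (2 * t) t := by simpa using hasDerivAt_pow 2 t
    exact (h2.inv (by positivity)).neg
  rw [h1.deriv]
  field_simp

/-- The square of the distance. -/
noncomputable def wS (a : E) (y : E) : ℝ := ∑ k, (y k - a k) * (y k - a k)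

theorem wS_eq (a y : E) : wS a y = ‖y - a‖ ^ 2 := by
  rw [norm_sq]
  unfold wS
  refine Finset.sum_congr rfl fun k _ => ?_
  simp [sq]

theorem contDiff_wS (a : E) : ContDiff ℝ ∞ (wS a) := by
  unfold wS
  exact ContDiff.sum fun k _ => ((contDiff_coord k).sub contDiff_const).mul ((contDiff_coord k).sub contDiff_const)

theorem pd_wS (a : E) (i : Fin 3) : pd i (wS a) = fun y => 2 * (y i - a i) := by
  have hc : ∀ k : Fin 3, ContDiff ℝ ∞ (fun y : E => y k - a k) := fun k => (contDiff_coord k).sub contDiff_const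
  unfold wS
  rw [pd_sum i Finset.univ (fun k (y : E) => (y k - a k) * (y k - a k)) fun k _ => (hc k).mul (hc k)]
  funext y
  have h1 : ∀ k : Fin 3, pd i (fun y : E => (y k - a k) * (y k - a k)) y = 2 * (if i = k then 1 else 0) * (y k - a k) := by
    intro k
    rw [pd_mul i (hc k) (hc k), pd_sub i (contDiff_coord k) contDiff_const, pd_coord, pd_const]
    ring
  simp only [h1]
  rw [Finset.sum_eq_single i]
  · simp
  · intro k _ hk
    rw [if_neg (Ne.symm hk)]; ring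
  · intro h; exact absurd (Finset.mem_univ i) h

theorem pd_pd_wS (a : E) (i j : Fin 3) (y : E) : pd i (pd j (wS a)) y = if i = j then 2 else 0 := by
  rw [pd_wS, pd_const_mul i 2 ((contDiff_coord j).sub contDiff_const), pd_sub i (contDiff_coord j) contDiff_const, pd_coord,
    pd_const]
  by_cases h : i = j
  · simp [h]
  · simp [h]

/-- The weight. -/
noncomputable def wpsi (ρ : ℝ) (a : E) (y : E) : ℝ := wg ρ (wS a y)

theorem contDiff_wpsi {ρ : ℝ} (hρ : 0 < ρ) (a : E) : ContDiff ℝ ∞ (wpsi ρ a) :=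
  (contDiff_wg hρ).comp (contDiff_wS a)

theorem pd_wpsi {ρ : ℝ} (hρ : 0 < ρ) (a : E) (i : Fin 3) :
    pd i (wpsi ρ a) = fun y => deriv (wg ρ) (wS a y) * (2 * (y i - a i)) := by
  have := pd_comp i (wg ρ) (contDiff_wg hρ) (contDiff_wS a)
  rw [pd_wS] at this
  exact this

theorem pd_pd_wpsi {ρ : ℝ} (hρ : 0 < ρ) (a : E) (i j : Fin 3) (y : E) :
    pd i (pd j (wpsi ρ a)) y = deriv (deriv (wg ρ)) (wS a y) * (2 * (y i - a i)) * (2 * (y j - a j)) +
      deriv (wg ρ) (wS a y) * (if i = j then 2 else 0) := by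
  have hd : ContDiff ℝ ∞ (deriv (wg ρ)) := (contDiff_infty_iff_deriv.mp (contDiff_wg hρ)).2
  have e := pd_mul (f := fun y => deriv (wg ρ) (wS a y)) (g := fun y : E => 2 * (y j - a j)) i
    (hd.comp (contDiff_wS a)) (contDiff_const.mul ((contDiff_coord j).sub contDiff_const))
  rw [pd_wpsi hρ a j, e]
  have h1 := pd_comp i (deriv (wg ρ)) hd (contDiff_wS a)
  rw [pd_wS] at h1
  have h2 : pd i (fun y : E => 2 * (y j - a j)) y = if i = j then 2 else 0 := by
    have := pd_pd_wS a i j y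
    rw [pd_wS] at this
    exact this
  show pd i (fun y => deriv (wg ρ) (wS a y)) y * (2 * (y j - a j)) + deriv (wg ρ) (wS a y) * pd i (fun y : E => 2 * (y j - a j)) y = _
  rw [h1, h2]

/-- The square of the length of the tangential gradient. -/
theorem sum_gr {F : E → ℝ} {y : E} (hN : ∑ i, pd i F y ^ 2 = 1) (f : E → ℝ) : ∑ i, gr F f i y ^ 2 = tang F f f y := by
  simp only [gr, tang, Fin.sum_univ_three] at hN ⊢
  linear_combination (pd 0 F y * pd 0 f y + pd 1 F y * pd 1 f y + pd 2 F y * pd 2 f y) ^ 2 * hN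

/-- A bound for quadratic forms. -/
theorem quad_le {K : ℝ} {H : Fin 3 → Fin 3 → ℝ} (hH : ∀ i j, |H i j| ≤ K) (x : Fin 3 → ℝ) :
    |∑ i, ∑ j, x i * x j * H i j| ≤ 3 * K * ∑ i, x i ^ 2 := by
  have hK : 0 ≤ K := (abs_nonneg _).trans (hH 0 0)
  have h1 : |∑ i, ∑ j, x i * x j * H i j| ≤ ∑ i, ∑ j, |x i| * |x j| * K := by
    refine (Finset.abs_sum_le_sum_abs _ _).trans (Finset.sum_le_sum fun i _ => ?_)
    refine (Finset.abs_sum_le_sum_abs _ _).trans (Finset.sum_le_sum fun j _ => ?_)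
    rw [abs_mul, abs_mul]
    exact mul_le_mul_of_nonneg_left (hH i j) (by positivity)
  refine h1.trans ?_
  simp only [Fin.sum_univ_three]
  rw [← sq_abs (x 0), ← sq_abs (x 1), ← sq_abs (x 2)]
  nlinarith [mul_nonneg hK (sq_nonneg (|x 0| - |x 1|)), mul_nonneg hK (sq_nonneg (|x 0| - |x 2|)),
    mul_nonneg hK (sq_nonneg (|x 1| - |x 2|))]

/-- The bounds for `F` in the unit ball. -/
theorem exists_bounds {F : E → ℝ} (hF : ContDiff ℝ ∞ F) :
    ∃ K L : ℝ, 0 ≤ K ∧ 0 ≤ L ∧ (∀ y ∈ Metric.closedBall (0 : E) 1, ∀ i j, |pd i (pd j F) y| ≤ K) ∧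
      ∀ y ∈ Metric.closedBall (0 : E) 1, ∀ a ∈ Metric.closedBall (0 : E) 1, F y = 0 → F a = 0 →
        |∑ i, pd i F y * (y i - a i)| ≤ L * ‖y - a‖ ^ 2 := by
  have hcomp : IsCompact (Metric.closedBall (0 : E) 1) := isCompact_closedBall 0 1
  have h1 : ∀ i j : Fin 3, ∃ K : ℝ, ∀ y ∈ Metric.closedBall (0 : E) 1, |pd i (pd j F) y| ≤ K := by
    intro i j
    obtain ⟨K, hK⟩ := hcomp.exists_bound_of_continuousOn (f := pd i (pd j F))
      (contDiff_pd i (contDiff_pd j hF)).continuous.continuousOn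
    exact ⟨K, fun y hy => by simpa using hK y hy⟩
  choose K hK using h1
  have hfd : ContDiff ℝ ∞ (fderiv ℝ F) := hF.fderiv_right (m := ∞) (by simp)
  have hfd2 : ContDiff ℝ ∞ (fderiv ℝ (fderiv ℝ F)) := hfd.fderiv_right (m := ∞) (by simp)
  obtain ⟨L, hL⟩ := hcomp.exists_bound_of_continuousOn (f := fderiv ℝ (fderiv ℝ F)) hfd2.continuous.continuousOn
  have hL0 : 0 ≤ L := (norm_nonneg _).trans (hL 0 (by simp))
  have hK0 : ∀ i j, 0 ≤ K i j := fun i j => (abs_nonneg _).trans (hK i j 0 (by simp))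
  refine ⟨∑ i, ∑ j, K i j, L, Finset.sum_nonneg fun i _ => Finset.sum_nonneg fun j _ => hK0 i j, hL0, ?_, ?_⟩
  · intro y hy i j
    refine (hK i j y hy).trans ?_
    refine (Finset.single_le_sum (f := fun j => K i j) (fun j _ => hK0 i j) (Finset.mem_univ j)).trans ?_
    exact Finset.single_le_sum (f := fun i => ∑ j, K i j) (fun i _ => Finset.sum_nonneg fun j _ => hK0 i j) (Finset.mem_univ i)
  · intro y hy a ha hFy hFa
    have hconv : Convex ℝ (Metric.closedBall (0 : E) 1) := convex_closedBall 0 1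
    have hseg : segment ℝ y a ⊆ Metric.closedBall (0 : E) 1 := hconv.segment_subset hy ha
    have hlip : ∀ x ∈ segment ℝ y a, ‖fderiv ℝ F x - fderiv ℝ F y‖ ≤ L * ‖a - y‖ := by
      intro x hx
      have h2 := hconv.norm_image_sub_le_of_norm_fderiv_le (𝕜 := ℝ) (f := fderiv ℝ F) (C := L)
        (fun z _ => hfd.differentiable (by simp) z) hL hy (hseg hx)
      refine h2.trans (mul_le_mul_of_nonneg_left ?_ hL0)
      have h3 : x ∈ Metric.closedBall y ‖a - y‖ := by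
        have h4 : segment ℝ y a ⊆ Metric.closedBall y ‖a - y‖ := by
          apply (convex_closedBall y ‖a - y‖).segment_subset
          · exact Metric.mem_closedBall_self (norm_nonneg _)
          · rw [Metric.mem_closedBall, dist_eq_norm]
        exact h4 hx
      rwa [Metric.mem_closedBall, dist_eq_norm] at h3
    have h5 := (convex_segment y a).norm_image_sub_le_of_norm_fderiv_le' (𝕜 := ℝ) (f := F) (φ := fderiv ℝ F y)
      (fun z _ => hF.differentiable (by simp) z) hlip (left_mem_segment ℝ y a) (right_mem_segment ℝ y a)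
    rw [hFa, hFy, fderiv_eq hF] at h5
    have h6 : (0 : ℝ) - 0 - ∑ k, (a - y) k * pd k F y = ∑ i, pd i F y * (y i - a i) := by
      rw [sub_zero, zero_sub, ← Finset.sum_neg_distrib]
      refine Finset.sum_congr rfl fun k _ => ?_
      simp only [PiLp.sub_apply]
      ring
    rw [h6, Real.norm_eq_abs] at h5
    rw [norm_sub_rev y a, sq, ← mul_assoc]
    exact h5

/-- The Hessian of the weight. -/
theorem hs_wpsi {F : E → ℝ} {ρ : ℝ} (hρ : 0 < ρ) (a : E) {y : E} (hy : ρ ^ 2 / 2 < wS a y) (x : Fin 3 → ℝ) :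
    hs F (wpsi ρ a) x x y = 8 * (∑ i, x i * (y i - a i)) ^ 2 * (wS a y ^ 3)⁻¹ - 2 * (∑ i, x i ^ 2) * (wS a y ^ 2)⁻¹ +
      2 * (∑ i, pd i F y * (y i - a i)) * (wS a y ^ 2)⁻¹ * ∑ i, ∑ j, x i * x j * pd i (pd j F) y := by
  unfold hs
  simp only [pd_pd_wpsi hρ]
  simp only [pd_wpsi hρ, deriv_wg hρ hy, deriv2_wg hρ hy, Fin.sum_univ_three, Fin.isValue, Fin.reduceEq, if_true, if_false]
  ring

theorem weight {F : E → ℝ} (h : FBMS F) {b : E} (hb : b ∈ inn F) : ∃ R : ℝ, 0 < R ∧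
    Metric.closedBall b (2 * R) ⊆ Metric.ball (0 : E) 1 ∧ ∀ a ∈ inn F, a ∈ Metric.ball b R → ∀ ρ : ℝ, 0 < ρ →
    ∃ (ψ m : E → ℝ) (c : ℝ), 0 < c ∧ ContDiff ℝ ∞ ψ ∧ ContDiff ℝ ∞ m ∧ (∀ y, ρ ≤ ‖y - a‖ → ψ y = 1 / ‖y - a‖ ^ 2) ∧
    ∀ y ∈ surf F, ρ ≤ ‖y - a‖ → ‖y - a‖ ≤ R →
      (∀ z : E → ℝ, ContDiff ℝ ∞ z → 0 ≤ hs F ψ (fun i => gr F z i y) (fun i => gr F z i y) y + m y * tang F z z y) ∧
      c ≤ hs F ψ (fun i => gr F ψ i y) (fun i => gr F ψ i y) y - m y * tang F ψ ψ y := by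
  obtain ⟨K, L, hK0, hL0, hK, hL⟩ := exists_bounds h.smooth
  set M : ℝ := 32 * L ^ 2 + 24 * K * L + 1 with hM
  have hM1 : 1 ≤ M := by
    have : 0 ≤ 24 * K * L := by positivity
    nlinarith [sq_nonneg L]
  have hb1 : ‖b‖ < 1 := hb.1
  obtain ⟨R, hR0, hR1, hR2⟩ : ∃ R : ℝ, 0 < R ∧ R ≤ (1 - ‖b‖) / 4 ∧ R ^ 2 * M ≤ 1 := by
    refine ⟨min ((1 - ‖b‖) / 4) (1 / M), lt_min (by linarith) (by positivity), min_le_left _ _, ?_⟩
    have h1 : min ((1 - ‖b‖) / 4) (1 / M) ≤ 1 / M := min_le_right _ _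
    have h0 : 0 < min ((1 - ‖b‖) / 4) (1 / M) := lt_min (by linarith) (by positivity)
    have h2 : min ((1 - ‖b‖) / 4) (1 / M) * M ≤ 1 := by
      calc min ((1 - ‖b‖) / 4) (1 / M) * M ≤ 1 / M * M := mul_le_mul_of_nonneg_right h1 (by linarith)
        _ = 1 := by field_simp
    have h3 : min ((1 - ‖b‖) / 4) (1 / M) ≤ 1 := by
      refine h1.trans ?_
      rw [div_le_one (by linarith)]
      exact hM1
    nlinarith
  refine ⟨R, hR0, ?_, ?_⟩
  · intro y hy
    rw [Metric.mem_closedBall, dist_eq_norm] at hy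
    rw [Metric.mem_ball, dist_zero_right]
    have : ‖y‖ ≤ ‖y - b‖ + ‖b‖ := by simpa using norm_add_le (y - b) b
    linarith
  · intro a ha _ ρ hρ
    refine ⟨wpsi ρ a, fun y => 4 * (wpsi ρ a y) ^ 2, 2 / R ^ 10, by positivity, contDiff_wpsi hρ a,
      contDiff_const.mul ((contDiff_wpsi hρ a).pow 2), ?_, ?_⟩
    · intro y hy
      have h1 : ρ ^ 2 ≤ ‖y - a‖ ^ 2 := pow_le_pow_left₀ hρ.le hy 2
      have h2 : ρ ^ 2 / 2 ≤ wS a y := by
        rw [wS_eq]
        have : 0 < ρ ^ 2 := by positivity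
        linarith
      rw [wpsi, wg_eq hρ h2, wS_eq, one_div]
    · intro y hy hρy hyR
      have hρ2 : 0 < ρ ^ 2 := by positivity
      have h1 : ρ ^ 2 ≤ ‖y - a‖ ^ 2 := pow_le_pow_left₀ hρ.le hρy 2
      have h2 : ρ ^ 2 / 2 < wS a y := by
        rw [wS_eq]; linarith
      set s : ℝ := wS a y with hs
      have hs0 : 0 < s := by
        have : 0 < ρ ^ 2 / 2 := by positivity
        linarith
      have hsR : s ≤ R ^ 2 := by
        rw [hs, wS_eq]
        exact pow_le_pow_left₀ (norm_nonneg _) hyR 2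
      have hsM : s * M ≤ 1 := (mul_le_mul_of_nonneg_right hsR (by linarith)).trans hR2
      have hyB : y ∈ Metric.closedBall (0 : E) 1 := by
        rw [Metric.mem_closedBall, dist_zero_right]; exact hy.1
      have haB : a ∈ Metric.closedBall (0 : E) 1 := by
        rw [Metric.mem_closedBall, dist_zero_right]; exact ha.1.le
      have hN := grad_sq h hy
      set nv : ℝ := ∑ i, pd i F y * (y i - a i) with hnv
      have hnvL : |nv| ≤ L * s := by
        rw [hs, wS_eq]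
        exact hL y hyB a haB hy.2 ha.2
      have hquad := quad_le (hK y hyB)
      have hpsi : wpsi ρ a y = s⁻¹ := wg_eq hρ h2.le
      have hm : 4 * (wpsi ρ a y) ^ 2 = 4 * (s ^ 2)⁻¹ := by
        rw [hpsi, inv_pow]
      have e1 : 3 * K * (L * s) ≤ 1 / 8 := by
        have : s * M = 32 * (L ^ 2 * s) + 8 * (3 * K * (L * s)) + s := by rw [hM]; ring
        have h3 : 0 ≤ L ^ 2 * s := by positivity
        linarith
      have e2 : L ^ 2 * s ≤ 1 / 32 := by
        have : s * M = 32 * (L ^ 2 * s) + 8 * (3 * K * (L * s)) + s := by rw [hM]; ring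
        have h3 : 0 ≤ 3 * K * (L * s) := by positivity
        linarith
      constructor
      · intro z _
        have h3 := hquad (fun i => gr F z i y)
        have h4 := sum_gr hN z
        set T : ℝ := tang F z z y with hT
        have hT0 : 0 ≤ T := by
          rw [← h4]
          exact Finset.sum_nonneg fun i _ => sq_nonneg _
        set A : ℝ := ∑ i, ∑ j, gr F z i y * gr F z j y * pd i (pd j F) y with hA
        rw [h4] at h3
        beta_reduce
        rw [hs_wpsi hρ a h2, hm, h4]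
        rw [← hs, ← hnv, ← hA]
        have h5 : |nv * A| ≤ T := by
          rw [abs_mul]
          calc |nv| * |A| ≤ (L * s) * (3 * K * T) := mul_le_mul hnvL h3 (abs_nonneg _) (by positivity)
            _ = (3 * K * (L * s)) * T := by ring
            _ ≤ 1 / 8 * T := mul_le_mul_of_nonneg_right e1 hT0
            _ ≤ T := by linarith
        have h6 : -T ≤ nv * A := (abs_le.mp h5).1
        have h7 : 0 ≤ 8 * (∑ i, gr F z i y * (y i - a i)) ^ 2 * (s ^ 3)⁻¹ := by positivity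
        have h8 : 0 ≤ (T + nv * A) * (s ^ 2)⁻¹ := mul_nonneg (by linarith) (by positivity)
        nlinarith
      · have h4 := sum_gr hN (wpsi ρ a)
        have h3 := hquad (fun i => gr F (wpsi ρ a) i y)
        have hg : ∀ i, gr F (wpsi ρ a) i y = -2 * (s ^ 2)⁻¹ * ((y i - a i) - nv * pd i F y) := by
          intro i
          simp only [gr, pd_wpsi hρ, ← hs, deriv_wg hρ h2, hnv, Fin.sum_univ_three]
          ring
        have hvs : ∑ i, (y i - a i) ^ 2 = s := by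
          rw [hs, wS]
          exact Finset.sum_congr rfl fun i _ => by ring
        set W : ℝ := s - nv ^ 2 with hW
        have hW1 : ∑ i, gr F (wpsi ρ a) i y ^ 2 = 4 * (s ^ 4)⁻¹ * W := by
          simp only [hg]
          simp only [Fin.sum_univ_three] at hvs hN hnv ⊢
          have e3 : (s ^ 4)⁻¹ = (s ^ 2)⁻¹ ^ 2 := by rw [← inv_pow]; ring
          rw [hW, e3]
          linear_combination 4 * (s ^ 2)⁻¹ ^ 2 * hvs + 4 * (s ^ 2)⁻¹ ^ 2 * nv ^ 2 * hN +
            8 * (s ^ 2)⁻¹ ^ 2 * nv * hnv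
        have hW2 : ∑ i, gr F (wpsi ρ a) i y * (y i - a i) = -2 * (s ^ 2)⁻¹ * W := by
          simp only [hg]
          simp only [Fin.sum_univ_three] at hvs hN hnv ⊢
          rw [hW]
          linear_combination -2 * (s ^ 2)⁻¹ * hvs - 2 * (s ^ 2)⁻¹ * nv * hnv
        beta_reduce
        rw [← h4, hs_wpsi hρ a h2, hm, hW1, hW2]
        rw [hW1] at h3
        set A : ℝ := ∑ i, ∑ j, gr F (wpsi ρ a) i y * gr F (wpsi ρ a) j y * pd i (pd j F) y with hA
        have hnv2 : nv ^ 2 ≤ L ^ 2 * s * s := by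
          have : |nv| ^ 2 ≤ (L * s) ^ 2 := pow_le_pow_left₀ (abs_nonneg _) hnvL 2
          rw [sq_abs] at this
          nlinarith
        have hW3 : 31 / 32 * s ≤ W := by
          have : L ^ 2 * s * s ≤ 1 / 32 * s := mul_le_mul_of_nonneg_right e2 hs0.le
          rw [hW]; linarith
        have hW0 : 0 < W := by
          have : 0 < 31 / 32 * s := by positivity
          linarith
        have h5 : |nv * A| ≤ 1 / 8 * (4 * (s ^ 4)⁻¹ * W) := by
          rw [abs_mul]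
          calc |nv| * |A| ≤ (L * s) * (3 * K * (4 * (s ^ 4)⁻¹ * W)) := mul_le_mul hnvL h3 (abs_nonneg _) (by positivity)
            _ = (3 * K * (L * s)) * (4 * (s ^ 4)⁻¹ * W) := by ring
            _ ≤ 1 / 8 * (4 * (s ^ 4)⁻¹ * W) := mul_le_mul_of_nonneg_right e1 (by positivity)
        have h6 : -(1 / 8 * (4 * (s ^ 4)⁻¹ * W)) ≤ nv * A := (abs_le.mp h5).1
        have h7 : -(1 / 8 * (4 * (s ^ 4)⁻¹ * W)) * (s ^ 2)⁻¹ ≤ nv * A * (s ^ 2)⁻¹ :=
          mul_le_mul_of_nonneg_right h6 (by positivity)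
        have h8 : 8 * (-2 * (s ^ 2)⁻¹ * W) ^ 2 * (s ^ 3)⁻¹ - 2 * (4 * (s ^ 4)⁻¹ * W) * (s ^ 2)⁻¹ +
            2 * nv * (s ^ 2)⁻¹ * A - 4 * (s ^ 2)⁻¹ * (4 * (s ^ 4)⁻¹ * W) =
            32 * W ^ 2 * (s ^ 7)⁻¹ - 24 * W * (s ^ 6)⁻¹ + 2 * (nv * A * (s ^ 2)⁻¹) := by
          field_simp
          ring
        rw [h8]
        have h9 : -(1 / 8 * (4 * (s ^ 4)⁻¹ * W)) * (s ^ 2)⁻¹ = -(1 / 2) * W * (s ^ 6)⁻¹ := by
          field_simp
          ring
        rw [h9] at h7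
        have h10 : 31 * W * (s ^ 6)⁻¹ ≤ 32 * W ^ 2 * (s ^ 7)⁻¹ := by
          have : 32 * W ^ 2 * (s ^ 7)⁻¹ - 31 * W * (s ^ 6)⁻¹ = W * (s ^ 7)⁻¹ * (32 * W - 31 * s) := by
            field_simp
          have h11 : 0 ≤ W * (s ^ 7)⁻¹ * (32 * W - 31 * s) := mul_nonneg (by positivity) (by linarith)
          linarith
        have h12 : 2 / R ^ 10 ≤ 6 * W * (s ^ 6)⁻¹ := by
          have h13 : 2 / R ^ 10 ≤ 2 / s ^ 5 := by
            apply div_le_div_of_nonneg_left (by norm_num) (by positivity)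
            calc s ^ 5 ≤ (R ^ 2) ^ 5 := pow_le_pow_left₀ hs0.le hsR 5
              _ = R ^ 10 := by ring
          have h14 : 2 / s ^ 5 ≤ 6 * W * (s ^ 6)⁻¹ := by
            have : 6 * W * (s ^ 6)⁻¹ - 2 / s ^ 5 = (s ^ 6)⁻¹ * (6 * W - 2 * s) := by
              field_simp
            have h15 : 0 ≤ (s ^ 6)⁻¹ * (6 * W - 2 * s) := mul_nonneg (by positivity) (by linarith)
            linarith
          linarith
        linarith

end Pool.Agent.Helper99.RS
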